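import Mathlib

/-!
The Blaschke bound for bounded holomorphic functions on the right half plane with real zeros, and
the passage from a convergent sum of reciprocals to density zero.
-/

set_option autoImplicit false

namespace Pool.Agent.Lib.MP_51e19e_an

open Set Filter Topology Metric Complex

/-- The open right half plane. -/
def H : Set ℂ := {z | 0 < z.re}

theorem isOpen_H : IsOpen H := isOpen_lt continuous_const Complex.continuous_re

theorem add_ne_zero_of_mem {z : ℂ} (hz : z ∈ H) {s : ℝ} (hs : 0 < s) : z + s ≠ 0 := by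
  intro h
  have h1 := congrArg Complex.re h
  have h2 : 0 < z.re := hz
  simp at h1
  linarith

theorem one_sub_ne_zero {w : ℂ} (hw : w ∈ ball (0 : ℂ) 1) : 1 - w ≠ 0 := by
  intro h
  have h1 : w = 1 := (sub_eq_zero.mp h).symm
  rw [h1] at hw
  simp at hw

theorem mobius_mem {s : ℝ} (hs : 0 < s) {w : ℂ} (hw : w ∈ ball (0 : ℂ) 1) :
    s * (1 + w) / (1 - w) ∈ H := by
  have h1 := one_sub_ne_zero hw
  have h2 : 0 < normSq (1 - w) := normSq_pos.mpr h1
  have h3 : normSq w < 1 := by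
    rw [mem_ball_zero_iff] at hw
    rw [normSq_eq_norm_sq]
    nlinarith [norm_nonneg w]
  show 0 < ((s : ℂ) * (1 + w) / (1 - w)).re
  rw [Complex.div_re, ← add_div]
  apply div_pos _ h2
  rw [normSq_apply] at h3
  simp
  nlinarith

theorem inv_mobius_mem {s : ℝ} (hs : 0 < s) {z : ℂ} (hz : z ∈ H) :
    (z - s) / (z + s) ∈ ball (0 : ℂ) 1 := by
  have h1 := add_ne_zero_of_mem hz hs
  have h2 : 0 < z.re := hz
  rw [mem_ball_zero_iff, norm_div, div_lt_one (norm_pos_iff.mpr h1)]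
  refine lt_of_pow_lt_pow_left₀ 2 (norm_nonneg _) ?_
  rw [← normSq_eq_norm_sq, ← normSq_eq_norm_sq, normSq_apply, normSq_apply]
  simp
  nlinarith

theorem schwarz_H {g : ℂ → ℂ} {M : ℝ} (hd : DifferentiableOn ℂ g H) (hM : ∀ z ∈ H, ‖g z‖ ≤ M)
    {s : ℝ} (hs : 0 < s) (h0 : g s = 0) {z : ℂ} (hz : z ∈ H) :
    ‖g z‖ ≤ M * ‖(z - s) / (z + s)‖ := by
  let μ : ℂ → ℂ := fun w => s * (1 + w) / (1 - w)
  have hμd : DifferentiableOn ℂ μ (ball 0 1) := by
    intro w hw
    apply DifferentiableAt.differentiableWithinAt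
    exact DifferentiableAt.div (by fun_prop) (by fun_prop) (one_sub_ne_zero hw)
  have hcomp : DifferentiableOn ℂ (g ∘ μ) (ball 0 1) :=
    hd.comp hμd fun w hw => mobius_mem hs hw
  have hμ0 : (g ∘ μ) 0 = 0 := by simpa [μ] using h0
  have hmaps : MapsTo (g ∘ μ) (ball 0 1) (closedBall ((g ∘ μ) 0) M) := by
    intro w hw
    rw [hμ0, mem_closedBall_zero_iff]
    exact hM _ (mobius_mem hs hw)
  have h1 := dist_le_div_mul_dist_of_mapsTo_ball hcomp hmaps (inv_mobius_mem hs hz)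
  have h2 : μ ((z - s) / (z + s)) = z := by
    have h3 := add_ne_zero_of_mem hz hs
    have h4 : (s : ℂ) ≠ 0 := by exact_mod_cast hs.ne'
    have h5 : 1 - (z - s) / (z + s) = 2 * s / (z + s) := by
      field_simp
      ring
    have h6 : 1 + (z - s) / (z + s) = 2 * z / (z + s) := by
      field_simp
      ring
    simp only [μ]
    rw [h5, h6]
    field_simp
  rw [hμ0, dist_zero_right, dist_zero_right, div_one, Function.comp_apply, h2] at h1
  exact h1

theorem blaschke (T : Finset ℝ) : ∀ {g : ℂ → ℂ} {M : ℝ}, DifferentiableOn ℂ g H →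
    (∀ z ∈ H, ‖g z‖ ≤ M) → (∀ s ∈ T, 0 < s ∧ g s = 0) → ∀ z ∈ H,
    ‖g z‖ ≤ M * ∏ s ∈ T, ‖(z - s) / (z + s)‖ := by
  classical
  induction T using Finset.induction_on with
  | empty =>
    intro g M _ hM _ z hz
    simpa using hM z hz
  | insert s T hsT ih =>
    intro g M hd hM hT z hz
    obtain ⟨hs, h0⟩ := hT s (Finset.mem_insert_self s T)
    have hsH : (s : ℂ) ∈ H := by
      show 0 < (s : ℂ).re
      simpa using hs
    let g1 : ℂ → ℂ := fun u => dslope g s u * (u + s)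
    have hd1 : DifferentiableOn ℂ g1 H :=
      ((differentiableOn_dslope (isOpen_H.mem_nhds hsH)).mpr hd).mul (by fun_prop)
    have hfac : ∀ u ∈ H, g u = g1 u * ((u - s) / (u + s)) := by
      intro u hu
      have h1 := add_ne_zero_of_mem hu hs
      have h2 := sub_smul_dslope g (s : ℂ) u
      rw [h0, sub_zero, smul_eq_mul] at h2
      simp only [g1]
      rw [← h2]
      field_simp
    have hne : ∀ u ∈ H, u ≠ s → (u - s) / (u + s) ≠ 0 := fun u hu hus =>
      div_ne_zero (sub_ne_zero.mpr hus) (add_ne_zero_of_mem hu hs)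
    have hM1' : ∀ u ∈ H, u ≠ s → ‖g1 u‖ ≤ M := by
      intro u hu hus
      have h1 := schwarz_H hd hM hs h0 hu
      rw [hfac u hu, norm_mul] at h1
      exact le_of_mul_le_mul_right h1 (norm_pos_iff.mpr (hne u hu hus))
    have hM1 : ∀ u ∈ H, ‖g1 u‖ ≤ M := by
      intro u hu
      by_cases hus : u = s
      · have hc : ContinuousAt g1 s := hd1.continuousOn.continuousAt (isOpen_H.mem_nhds hsH)
        have ht : Tendsto (fun v => ‖g1 v‖) (𝓝[≠] (s : ℂ)) (𝓝 ‖g1 s‖) :=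
          hc.norm.tendsto.mono_left nhdsWithin_le_nhds
        rw [hus]
        refine le_of_tendsto ht ?_
        filter_upwards [self_mem_nhdsWithin, mem_nhdsWithin_of_mem_nhds (isOpen_H.mem_nhds hsH)]
          with v hv1 hv2 using hM1' v hv2 hv1
      · exact hM1' u hu hus
    have hT1 : ∀ t ∈ T, 0 < t ∧ g1 t = 0 := by
      intro t ht
      obtain ⟨ht0, hgt⟩ := hT t (Finset.mem_insert_of_mem ht)
      have htH : (t : ℂ) ∈ H := by
        show 0 < (t : ℂ).re
        simpa using ht0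
      have hts : (t : ℂ) ≠ s := by
        intro h
        have : t = s := by exact_mod_cast h
        exact hsT (this ▸ ht)
      rw [hfac _ htH] at hgt
      exact ⟨ht0, (mul_eq_zero.mp hgt).resolve_right (hne _ htH hts)⟩
    have h2 := ih hd1 hM1 hT1 z hz
    rw [Finset.prod_insert hsT, hfac z hz, norm_mul]
    calc ‖g1 z‖ * ‖(z - s) / (z + s)‖
        ≤ (M * ∏ t ∈ T, ‖(z - t) / (z + t)‖) * ‖(z - s) / (z + s)‖ := by gcongr
      _ = M * (‖(z - s) / (z + s)‖ * ∏ t ∈ T, ‖(z - t) / (z + t)‖) := by ring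

/-- The Blaschke condition for real zeros to the right of a point where the function does not
vanish. -/
theorem blaschke_sum {g : ℂ → ℂ} {M : ℝ} (hd : DifferentiableOn ℂ g H) (hM : ∀ z ∈ H, ‖g z‖ ≤ M)
    {c : ℝ} (hc : 0 < c) (hg : g c ≠ 0) (T : Finset ℝ) (hT : ∀ s ∈ T, c ≤ s ∧ g s = 0) :
    ∑ s ∈ T, 2 * c / (c + s) ≤ Real.log (M / ‖g c‖) := by
  have hcH : (c : ℂ) ∈ H := by
    show 0 < (c : ℂ).re
    simpa using hc
  have h1 := blaschke T hd hM (fun s hs => ⟨hc.trans_le (hT s hs).1, (hT s hs).2⟩) c hcH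
  have hpos : 0 < ‖g c‖ := norm_pos_iff.mpr hg
  have hM0 : 0 < M := hpos.trans_le (hM c hcH)
  have h2 : ∏ s ∈ T, ‖((c : ℂ) - s) / (c + s)‖ ≤ ∏ s ∈ T, Real.exp (-(2 * c / (c + s))) := by
    refine Finset.prod_le_prod (fun _ _ => norm_nonneg _) fun s hs => ?_
    have hcs := (hT s hs).1
    have h3 : 0 < c + s := by linarith
    have h4 : ((c : ℂ) - s) / (c + s) = (((c - s) / (c + s) : ℝ) : ℂ) := by push_cast; rfl
    rw [h4, Complex.norm_real, Real.norm_eq_abs, abs_div, abs_of_pos h3,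
      abs_of_nonpos (by linarith)]
    have h5 : -(c - s) / (c + s) = -(2 * c / (c + s)) + 1 := by
      field_simp
      ring
    rw [h5]
    exact Real.add_one_le_exp _
  rw [← Real.exp_sum, Finset.sum_neg_distrib] at h2
  have h6 : ‖g c‖ ≤ M * Real.exp (-∑ s ∈ T, 2 * c / (c + s)) :=
    h1.trans (mul_le_mul_of_nonneg_left h2 hM0.le)
  rw [Real.le_log_iff_exp_le (div_pos hM0 hpos), le_div_iff₀ hpos]
  rw [Real.exp_neg] at h6
  have h7 := Real.exp_pos (∑ s ∈ T, 2 * c / (c + s))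
  calc Real.exp (∑ s ∈ T, 2 * c / (c + s)) * ‖g c‖
      ≤ Real.exp (∑ s ∈ T, 2 * c / (c + s)) * (M * (Real.exp (∑ s ∈ T, 2 * c / (c + s)))⁻¹) := by
        gcongr
    _ = M := by field_simp

theorem card_le_of_bound {T : Finset ℝ} {X : ℝ} (hT : ∀ t ∈ T, |t| < X) :
    (T.card : ℝ) ≤ (X + 1) * ∑ t ∈ T, 1 / (|t| + 1) := by
  rw [Finset.mul_sum, Finset.card_eq_sum_ones, Nat.cast_sum]
  refine Finset.sum_le_sum fun t ht => ?_
  have h1 := hT t ht
  have h2 : 0 < |t| + 1 := by positivity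
  rw [Nat.cast_one, mul_one_div, le_div_iff₀ h2]
  linarith

theorem density_zero (Z : Set ℝ) (K : ℝ)
    (hK : ∀ T : Finset ℝ, (T : Set ℝ) ⊆ Z → ∑ t ∈ T, 1 / (|t| + 1) ≤ K) :
    (∀ X : ℝ, {t : ℝ | |t| < X ∧ t ∈ Z}.Finite) ∧
      Tendsto (fun X : ℝ => ({t : ℝ | |t| < X ∧ t ∈ Z}.ncard : ℝ) / X) atTop (𝓝 0) := by
  classical
  have hfin : ∀ X : ℝ, {t : ℝ | |t| < X ∧ t ∈ Z}.Finite := by
    intro X
    by_contra hinf
    obtain ⟨N, hN⟩ := exists_nat_gt ((|X| + 1) * K)
    obtain ⟨T, hT, hcard⟩ := Set.Infinite.exists_subset_card_eq hinf N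
    have h1 := card_le_of_bound (T := T) (X := |X|) fun t ht => (hT ht).1.trans_le (le_abs_self X)
    have h2 := hK T fun t ht => (hT ht).2
    rw [hcard] at h1
    have h3 : (|X| + 1) * ∑ t ∈ T, 1 / (|t| + 1) ≤ (|X| + 1) * K := by gcongr
    linarith
  refine ⟨hfin, ?_⟩
  let φ : ℝ → ℝ := Z.indicator fun t => 1 / (|t| + 1)
  have hφ0 : ∀ t, 0 ≤ φ t := fun t => indicator_nonneg (fun u _ => by positivity) t
  have hφs : Summable φ := by
    refine summable_of_sum_le (c := K) hφ0 fun T => ?_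
    refine le_trans (le_of_eq ?_) (hK (T.filter (· ∈ Z)) fun t ht => ?_)
    · rw [Finset.sum_filter]
      refine Finset.sum_congr rfl fun t _ => ?_
      simp [φ, indicator_apply]
    · exact (Finset.mem_filter.mp ht).2
  rw [Metric.tendsto_nhds]
  intro ε hε
  obtain ⟨T0, hT0⟩ := summable_iff_vanishing_norm.mp hφs (ε / 4) (by positivity)
  filter_upwards [eventually_ge_atTop (1 : ℝ), eventually_gt_atTop (2 * T0.card / ε)] with X hX1 hX2
  have hX0 : 0 < X := by linarith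
  let T := (hfin X).toFinset
  have hTm : ∀ t ∈ T, |t| < X ∧ t ∈ Z := fun t ht => (hfin X).mem_toFinset.mp ht
  have h1 : ({t : ℝ | |t| < X ∧ t ∈ Z}.ncard : ℝ) = T.card := by
    rw [Set.ncard_eq_toFinset_card _ (hfin X)]
  have h2 : (T.card : ℝ) ≤ T0.card + (T \ T0).card := by
    have := Finset.le_card_sdiff T0 T
    have h3 : T.card ≤ T0.card + (T \ T0).card := by omega
    exact_mod_cast h3
  have h3 := card_le_of_bound (T := T \ T0) (X := X)
    fun t ht => (hTm t (Finset.mem_sdiff.mp ht).1).1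
  have h4 : ∑ t ∈ T \ T0, 1 / (|t| + 1) < ε / 4 := by
    have h5 := hT0 (T \ T0) Finset.sdiff_disjoint
    have h6 : ∑ t ∈ T \ T0, φ t = ∑ t ∈ T \ T0, 1 / (|t| + 1) :=
      Finset.sum_congr rfl fun t ht =>
        indicator_of_mem (hTm t (Finset.mem_sdiff.mp ht).1).2 _
    rw [h6] at h5
    exact (le_abs_self _).trans_lt h5
  rw [Real.dist_eq, sub_zero, h1, abs_of_nonneg (by positivity), div_lt_iff₀ hX0]
  have h7 : (X + 1) * ∑ t ∈ T \ T0, 1 / (|t| + 1) ≤ (X + 1) * (ε / 4) := by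
    gcongr
  rw [div_lt_iff₀ hε] at hX2
  nlinarith

end Pool.Agent.Lib.MP_51e19e_an
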