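import Pool.Agent.Lib.MP_51e19e_an.Blaschke

/-!
The function `z ↦ ∑ a n / ((z + 1/8) ^ 2 + (n + 1) ^ 2 - 1/16)` is bounded and holomorphic on the
right half plane, and its real zeros record the real zeros of `∑ a n / (t ^ 2 + (n + 1) ^ 2)`.
-/

set_option autoImplicit false

namespace Pool.Agent.Lib.MP_51e19e_an

open Set Filter Topology Metric Complex

theorem real_ineq {s T N : ℝ} (hs : 1 / 64 ≤ s) (hT : 0 ≤ T) (hN : 1 ≤ N) :
    ((1 + (N - T) ^ 2) / 16) ^ 2 ≤ (s - T ^ 2 + (N ^ 2 - 1 / 16)) ^ 2 + 4 * s * T ^ 2 := by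
  have h1 : (s - T ^ 2 + (N ^ 2 - 1 / 16)) ^ 2 + 4 * s * T ^ 2 =
      ((N - T) * (N + T) - 1 / 16) ^ 2 + 2 * s * (N ^ 2 - 1 / 16 + T ^ 2) + s ^ 2 := by ring
  have h2 : ((N - T) * (N + T)) ^ 2 / 2 - 1 / 256 ≤ ((N - T) * (N + T) - 1 / 16) ^ 2 := by
    nlinarith [sq_nonneg ((N - T) * (N + T) - 1 / 8)]
  have h3 : 0 ≤ N ^ 2 - 1 / 16 + T ^ 2 := by nlinarith
  have h4 : (N ^ 2 - 1 / 16 + T ^ 2) / 32 ≤ 2 * s * (N ^ 2 - 1 / 16 + T ^ 2) := by nlinarith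
  have h5 : (N + T) ^ 2 / 64 - 1 / 512 ≤ (N ^ 2 - 1 / 16 + T ^ 2) / 32 := by
    nlinarith [sq_nonneg (N - T)]
  have h6 : 1 ≤ (N + T) ^ 2 := by nlinarith
  have h7 : (N - T) ^ 2 ≤ (N + T) ^ 2 := by nlinarith
  have h8 : (1 + (N - T) ^ 2) / 2 ≤ (N + T) ^ 2 := by linarith
  have h9 : (1 + (N - T) ^ 2) / 2 * (1 + (N - T) ^ 2) ≤ (N + T) ^ 2 * (1 + (N - T) ^ 2) := by
    gcongr
  have h10 : 0 ≤ ((N - T) * (N + T)) ^ 2 := sq_nonneg _
  have h11 : (N + T) ^ 2 * (1 + (N - T) ^ 2) = (N + T) ^ 2 + ((N - T) * (N + T)) ^ 2 := by ring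
  rw [h1]
  nlinarith [sq_nonneg s]

theorem denom_lower {z : ℂ} (hz : z ∈ H) {N : ℝ} (hN : 1 ≤ N) :
    (1 + (N - |z.im|) ^ 2) / 16 ≤ ‖(z + 1 / 8) ^ 2 + ((N : ℂ) ^ 2 - 1 / 16)‖ := by
  have h0 : 0 < z.re := hz
  refine le_of_pow_le_pow_left₀ two_ne_zero (norm_nonneg _) ?_
  have h1 := real_ineq (s := (z.re + 1 / 8) ^ 2) (T := |z.im|) (N := N) (by nlinarith)
    (abs_nonneg _) hN
  refine h1.trans (le_of_eq ?_)
  rw [← normSq_eq_norm_sq, normSq_apply, sq_abs]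
  simp [pow_two]
  ring

theorem peetre (x y : ℝ) : 1 + (x + y) ^ 2 ≤ 2 * (1 + x ^ 2) * (1 + y ^ 2) := by
  nlinarith [sq_nonneg (x - y), sq_nonneg (x * y)]

theorem summable_int : Summable fun m : ℤ => 1 / (1 + (m : ℝ) ^ 2) := by
  refine Summable.of_norm_bounded_eventually (Real.summable_one_div_int_pow.mpr one_lt_two) ?_
  filter_upwards [(Set.finite_singleton (0 : ℤ)).compl_mem_cofinite] with m hm
  have hm' : (m : ℝ) ≠ 0 := by exact_mod_cast hm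
  rw [Real.norm_eq_abs, abs_of_nonneg (by positivity)]
  apply one_div_le_one_div_of_le (by positivity)
  linarith

section

variable {a : ℕ → ℝ}

/-- One term of the shifted series. -/
noncomputable def term (a : ℕ → ℝ) (n : ℕ) (z : ℂ) : ℂ :=
  (a n : ℂ) / ((z + 1 / 8) ^ 2 + ((((n : ℝ) + 1 : ℝ) : ℂ) ^ 2 - 1 / 16))

theorem norm_a (ha : ∀ n, a n = 1 ∨ a n = -1) (n : ℕ) : |a n| = 1 := by
  rcases ha n with h | h <;> simp [h]

theorem one_le_succ (n : ℕ) : (1 : ℝ) ≤ (n : ℝ) + 1 := by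
  have : (0 : ℝ) ≤ n := Nat.cast_nonneg n
  linarith

theorem norm_term_le (ha : ∀ n, a n = 1 ∨ a n = -1) (n : ℕ) {z : ℂ} (hz : z ∈ H) :
    ‖term a n z‖ ≤ 16 / (1 + ((n : ℝ) + 1 - |z.im|) ^ 2) := by
  have h1 := denom_lower hz (one_le_succ n)
  have h2 : 0 < (1 + ((n : ℝ) + 1 - |z.im|) ^ 2) / 16 := by positivity
  rw [term, norm_div, Complex.norm_real, Real.norm_eq_abs, norm_a ha]
  refine (one_div_le_one_div_of_le h2 h1).trans (le_of_eq ?_)
  rw [one_div_div]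

theorem term_differentiableOn (n : ℕ) : DifferentiableOn ℂ (term a n) H := by
  intro z hz
  apply DifferentiableAt.differentiableWithinAt
  refine DifferentiableAt.div (by fun_prop) (by fun_prop) ?_
  have h1 := denom_lower hz (one_le_succ n)
  have h2 : 0 < (1 + ((n : ℝ) + 1 - |z.im|) ^ 2) / 16 := by positivity
  exact norm_pos_iff.mp (h2.trans_le h1)

theorem summable_shift (k : ℤ) :
    Summable fun n : ℕ => 1 / (1 + ((((n : ℤ) + 1 - k : ℤ) : ℝ)) ^ 2) :=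
  summable_int.comp_injective (i := fun n : ℕ => (n : ℤ) + 1 - k) fun n m h => by
    simpa using h

theorem psi_differentiableOn (ha : ∀ n, a n = 1 ∨ a n = -1) :
    DifferentiableOn ℂ (fun z => ∑' n, term a n z) H := by
  intro z0 hz0
  apply DifferentiableAt.differentiableWithinAt
  let R : ℝ := |z0.im| + 1
  let U : Set ℂ := H ∩ {z | |z.im| < R}
  have hU : IsOpen U := isOpen_H.inter (isOpen_lt (by fun_prop) continuous_const)
  have hz0U : z0 ∈ U := ⟨hz0, by simp [R]⟩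
  have hd : DifferentiableOn ℂ (fun z => ∑' n, term a n z) U := by
    refine differentiableOn_tsum_of_summable_norm
      (u := fun n : ℕ => 32 * (1 + R ^ 2) * (1 / (1 + ((((n : ℤ) + 1 - 0 : ℤ) : ℝ)) ^ 2)))
      ((summable_shift 0).mul_left _)
      (fun n => (term_differentiableOn n).mono inter_subset_left) hU ?_
    intro n z hz
    refine (norm_term_le ha n hz.1).trans ?_
    have h1 := peetre ((n : ℝ) + 1 - |z.im|) |z.im|
    have h2 : |z.im| < R := hz.2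
    have h3 : |z.im| ^ 2 ≤ R ^ 2 := by gcongr
    push_cast
    rw [mul_one_div, div_le_div_iff₀ (by positivity) (by positivity)]
    have h4 : 0 ≤ 1 + ((n : ℝ) + 1 - |z.im|) ^ 2 := by positivity
    nlinarith
  exact hd.differentiableAt (hU.mem_nhds hz0U)

theorem psi_bounded (ha : ∀ n, a n = 1 ∨ a n = -1) (z : ℂ) (hz : z ∈ H) :
    ‖∑' n, term a n z‖ ≤ 64 * ∑' m : ℤ, 1 / (1 + (m : ℝ) ^ 2) := by
  let k : ℤ := ⌊|z.im|⌋
  have h1 : ‖∑' n, term a n z‖ ≤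
      64 * ∑' n : ℕ, 1 / (1 + ((((n : ℤ) + 1 - k : ℤ) : ℝ)) ^ 2) := by
    refine tsum_of_norm_bounded ((summable_shift k).hasSum.mul_left 64) fun n => ?_
    refine (norm_term_le ha n hz).trans ?_
    have h2 := peetre ((n : ℝ) + 1 - |z.im|) (|z.im| - k)
    have h3 : (k : ℝ) ≤ |z.im| := Int.floor_le _
    have h4 : |z.im| < k + 1 := Int.lt_floor_add_one _
    have h5 : (|z.im| - k) ^ 2 ≤ 1 := by nlinarith
    push_cast
    rw [mul_one_div, div_le_div_iff₀ (by positivity) (by positivity)]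
    have h6 : 0 ≤ 1 + ((n : ℝ) + 1 - |z.im|) ^ 2 := by positivity
    have h7 : (n : ℝ) + 1 - |z.im| + (|z.im| - k) = n + 1 - k := by ring
    rw [h7] at h2
    nlinarith
  refine h1.trans (mul_le_mul_of_nonneg_left ?_ (by norm_num))
  exact (summable_shift k).tsum_le_tsum_of_inj (fun n : ℕ => (n : ℤ) + 1 - k)
    (fun n m h => by simpa using h) (fun _ _ => by positivity) (fun _ => le_rfl) summable_int

/-- The change of variable `t ↦ √(t ^ 2 + 1/16) - 1/8`. -/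
noncomputable def chg (t : ℝ) : ℝ := √(t ^ 2 + 1 / 16) - 1 / 8

theorem chg_sq (t : ℝ) : (chg t + 1 / 8) ^ 2 = t ^ 2 + 1 / 16 := by
  rw [chg, sub_add_cancel, Real.sq_sqrt (by positivity)]

theorem le_chg (t : ℝ) : 1 / 8 ≤ chg t := by
  have : (1 : ℝ) / 4 ≤ √(t ^ 2 + 1 / 16) := by
    apply Real.le_sqrt_of_sq_le
    nlinarith [sq_nonneg t]
  rw [chg]
  linarith

theorem chg_le (t : ℝ) : 1 / 8 + chg t ≤ |t| + 1 := by
  have : √(t ^ 2 + 1 / 16) ≤ |t| + 1 := by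
    apply Real.sqrt_le_iff.mpr ⟨by positivity, ?_⟩
    nlinarith [abs_nonneg t, sq_abs t]
  rw [chg]
  linarith

theorem chg_zero : chg 0 = 1 / 8 := by
  have : √((0 : ℝ) ^ 2 + 1 / 16) = 1 / 4 := by
    rw [Real.sqrt_eq_iff_mul_self_eq (by positivity) (by positivity)]
    norm_num
  rw [chg, this]
  norm_num

theorem psi_chg (t : ℝ) :
    ∑' n, term a n (chg t) = ((∑' n : ℕ, a n / (t ^ 2 + ((n : ℝ) + 1) ^ 2) : ℝ) : ℂ) := by
  rw [Complex.ofReal_tsum]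
  refine tsum_congr fun n => ?_
  have h1 : ((chg t : ℂ) + 1 / 8) ^ 2 = (t : ℂ) ^ 2 + 1 / 16 := by
    have := congrArg (fun x : ℝ => (x : ℂ)) (chg_sq t)
    push_cast at this
    exact this
  rw [term, h1]
  push_cast
  congr 1
  ring

theorem at_zero_ne (ha : ∀ n, a n = 1 ∨ a n = -1) :
    ∑' n : ℕ, a n / ((0 : ℝ) ^ 2 + ((n : ℝ) + 1) ^ 2) ≠ 0 := by
  have hz := hasSum_zeta_two
  have hz1 : HasSum (fun n : ℕ => (1 : ℝ) / (((n + 1 : ℕ) : ℝ)) ^ 2) (Real.pi ^ 2 / 6) := by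
    rw [hasSum_nat_add_iff (f := fun n : ℕ => (1 : ℝ) / (n : ℝ) ^ 2) 1]
    simpa using hz
  have hz2 : HasSum (fun n : ℕ => (1 : ℝ) / (((n + 2 : ℕ) : ℝ)) ^ 2) (Real.pi ^ 2 / 6 - 1) := by
    rw [hasSum_nat_add_iff (f := fun n : ℕ => (1 : ℝ) / (n : ℝ) ^ 2) 2]
    simpa [Finset.sum_range_succ] using hz
  have hn : ∀ n : ℕ, ‖a n / ((0 : ℝ) ^ 2 + ((n : ℝ) + 1) ^ 2)‖ ≤ 1 / (((n + 1 : ℕ) : ℝ)) ^ 2 := by
    intro n
    rw [norm_div, Real.norm_eq_abs, norm_a ha, Real.norm_eq_abs, abs_of_nonneg (by positivity)]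
    push_cast
    simp
  have hs : Summable fun n : ℕ => a n / ((0 : ℝ) ^ 2 + ((n : ℝ) + 1) ^ 2) :=
    Summable.of_norm_bounded hz1.summable hn
  rw [hs.tsum_eq_zero_add]
  have h1 := tsum_of_norm_bounded hz2 (fun n => hn (n + 1))
  have h2 : Real.pi ^ 2 / 6 - 1 < 1 := by
    have := Real.pi_lt_d2
    have := Real.pi_pos
    nlinarith
  intro h
  have h3 := eq_neg_of_add_eq_zero_left h
  have h4 := congrArg abs h3
  rw [abs_neg, abs_div, norm_a ha] at h4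
  rw [Real.norm_eq_abs, ← h4] at h1
  norm_num at h1
  linarith

theorem sum_nonneg_zeros (ha : ∀ n, a n = 1 ∨ a n = -1) : ∃ K : ℝ, ∀ T : Finset ℝ,
    InjOn chg T → (∀ t ∈ T, ∑' n : ℕ, a n / (t ^ 2 + ((n : ℝ) + 1) ^ 2) = 0) →
    ∑ t ∈ T, 1 / (|t| + 1) ≤ K := by
  classical
  have hc : (fun z => ∑' n, term a n z) ((1 / 8 : ℝ) : ℂ) ≠ 0 := by
    show ∑' n, term a n ((1 / 8 : ℝ) : ℂ) ≠ 0
    rw [← chg_zero, psi_chg]
    exact_mod_cast at_zero_ne ha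
  have hB := blaschke_sum (psi_differentiableOn ha) (psi_bounded ha) (c := 1 / 8) (by norm_num) hc
  refine ⟨4 * Real.log ((64 * ∑' m : ℤ, 1 / (1 + (m : ℝ) ^ 2)) /
    ‖(fun z => ∑' n, term a n z) ((1 / 8 : ℝ) : ℂ)‖), fun T hinj hT => ?_⟩
  have h1 := hB (T.image chg) (by
    intro s hs
    obtain ⟨t, ht, rfl⟩ := Finset.mem_image.mp hs
    refine ⟨le_chg t, ?_⟩
    show ∑' n, term a n (chg t) = 0
    rw [psi_chg, hT t ht, Complex.ofReal_zero])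
  rw [Finset.sum_image hinj] at h1
  refine le_trans ?_ (mul_le_mul_of_nonneg_left h1 (by norm_num))
  rw [Finset.mul_sum]
  refine Finset.sum_le_sum fun t _ => ?_
  have h2 := chg_le t
  have h3 := le_chg t
  have h4 : 4 * (2 * (1 / 8) / (1 / 8 + chg t)) = 1 / (1 / 8 + chg t) := by ring
  rw [h4]
  exact one_div_le_one_div_of_le (by linarith) h2

theorem sum_zeros (ha : ∀ n, a n = 1 ∨ a n = -1) : ∃ K : ℝ, ∀ T : Finset ℝ,
    (T : Set ℝ) ⊆ {t | ∑' n : ℕ, a n / (t ^ 2 + ((n : ℝ) + 1) ^ 2) = 0} →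
    ∑ t ∈ T, 1 / (|t| + 1) ≤ K := by
  classical
  obtain ⟨K, hK⟩ := sum_nonneg_zeros ha
  refine ⟨K + K, fun T hT => ?_⟩
  have hsq : ∀ t t', chg t = chg t' → t ^ 2 = t' ^ 2 := by
    intro t t' h
    have h1 := chg_sq t
    rw [h, chg_sq] at h1
    linarith
  rw [← Finset.sum_filter_add_sum_filter_not T (fun t => 0 ≤ t)]
  refine add_le_add (hK _ ?_ ?_) (hK _ ?_ ?_)
  · intro t ht t' ht' h
    exact (pow_left_inj₀ (Finset.mem_filter.mp ht).2 (Finset.mem_filter.mp ht').2 two_ne_zero).mp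
      (hsq t t' h)
  · exact fun t ht => hT (Finset.mem_filter.mp ht).1
  · intro t ht t' ht' h
    have h1 := not_le.mp (Finset.mem_filter.mp ht).2
    have h2 := not_le.mp (Finset.mem_filter.mp ht').2
    have h3 := hsq t t' h
    nlinarith
  · exact fun t ht => hT (Finset.mem_filter.mp ht).1

end

end Pool.Agent.Lib.MP_51e19e_an
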